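import Pool.Agent.H49.G.R_seed8.TH823.EL.Small
import Pool.Agent.H49.G.R_seed8.TH823.PS.Major
import Mathlib.NumberTheory.Primorial

set_option autoImplicit false

/-!
# From a logarithmic average over the scales to every scale
-/

open Finset MeasureTheory
open scoped Real
open Pool.Agent.Helper112

namespace Pool.Agent.TH823.EL

open Pool.Agent.TH823.PS Pool.Agent.W66 Pool.Agent.W66L

lemma gco_split (W : ℝ) (P : Finset ℕ) (w : ℕ → ℂ) (S : Finset ℕ) (c : ℕ → ℂ) (k : ℕ) :
    gco W P w S c k = gco W ∅ w S c k + ∑ p ∈ P, gco 0 {p} w S c k := by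
  unfold gco
  rw [sum_empty, sub_zero, sub_eq_add_neg, ← sum_neg_distrib]
  congr 1
  apply sum_congr rfl
  intro p _
  rw [sum_singleton]
  simp

lemma gco_twist (W : ℝ) (P : Finset ℕ) (w : ℕ → ℂ) (S : Finset ℕ) (c : ℕ → ℂ) (k : ℕ) (e e' : ℕ → ℂ)
    (he : k ∈ S → e' k = e k) (hP : ∀ p ∈ P, p ∣ k → e' (k / p) = e k) :
    gco W P w S c k * e k = gco W P w S (fun n => c n * e' n) k := by
  unfold gco
  rw [sub_mul, sum_mul]
  congr 1
  · split_ifs with h
    · simp only; rw [he h]; ring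
    · ring
  · apply sum_congr rfl
    intro p hp
    split_ifs with h
    · simp only; rw [hP p hp h.1]; ring
    · ring

lemma ggC_add (h : ℝ) (K : Finset ℕ) (u v : ℕ → ℂ) (x : ℝ) :
    ggC h K (fun k => u k + v k) x = ggC h K u x + ggC h K v x := by
  unfold ggC
  rw [← sum_add_distrib]
  exact sum_congr rfl fun _ _ => by ring

lemma ggC_sum (h : ℝ) (K P : Finset ℕ) (v : ℕ → ℕ → ℂ) (x : ℝ) :
    ggC h K (fun k => ∑ p ∈ P, v p k) x = ∑ p ∈ P, ggC h K (v p) x := by
  unfold ggC
  rw [sum_comm]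
  exact sum_congr rfl fun _ _ => by rw [sum_mul]

/-- the relation for the twisted sums -/
lemma gco_tw {W : ℝ} {P : Finset ℕ} {w : ℕ → ℂ} {S K : Finset ℕ} (c : ℕ → ℂ)
    (hP : ∀ p ∈ P, 0 < p) (hS : ∀ s ∈ S, 0 < s) (hSK : ∀ s ∈ S, s ∈ K)
    (hPK : ∀ s ∈ S, ∀ p ∈ P, p * s ∈ K) (h x : ℝ) (q a : ℕ) :
    ggC h K (fun k => gco W P w S c k * ee (k * a / q)) x =
      (W : ℂ) * ggC h S (fun n => c n * ee (n * a / q)) x -
        ∑ p ∈ P, w p * ggC h S (fun n => c n * ee (n * ((p * a : ℕ) : ℝ) / q)) (x - Real.log p) := by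
  have e0 : (fun k : ℕ => gco W P w S c k * ee (k * a / q)) =
      fun k => gco W ∅ w S (fun n => c n * ee (n * a / q)) k +
        ∑ p ∈ P, gco 0 {p} w S (fun n => c n * ee (n * ((p * a : ℕ) : ℝ) / q)) k := by
    ext k
    rw [gco_split, add_mul, sum_mul]
    congr 1
    · exact gco_twist W ∅ w S c k (fun k => ee (k * a / q)) (fun k => ee (k * a / q)) (fun _ => rfl)
        (fun p hp => absurd hp (notMem_empty p))
    · apply sum_congr rfl
      intro p hp
      have h1 : gco 0 {p} w S c k * ee (k * a / q) =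
          gco 0 {p} w S (fun n => c n * ee (n * ((p * a : ℕ) : ℝ) / q)) k := by
        unfold gco
        rw [sub_mul, sum_mul, sum_singleton, sum_singleton]
        congr 1
        · simp
        · split_ifs with h2
          · have h3 : ((k / p : ℕ) : ℝ) * ((p * a : ℕ) : ℝ) / q = k * a / q := by
              have h4 : (k : ℝ) = p * ((k / p : ℕ) : ℝ) := by exact_mod_cast (Nat.mul_div_cancel' h2.1).symm
              rw [h4]
              push_cast
              ring
            simp only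
            rw [h3]
            ring
          · ring
      exact h1
  rw [e0, ggC_add, ggC_sum, gco_eq _ (fun p hp => absurd hp (notMem_empty p)) hS hSK
    (fun _ _ p hp => absurd hp (notMem_empty p)), sum_empty, sub_zero, sub_eq_add_neg, ← sum_neg_distrib]
  congr 1
  apply sum_congr rfl
  intro p hp
  rw [gco_eq _ (fun r hr => by rw [mem_singleton] at hr; rw [hr]; exact hP p hp) hS hSK
    (fun s hs r hr => by rw [mem_singleton] at hr; rw [hr]; exact hPK s hs p hp), sum_singleton]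
  simp

lemma perm_rr {q p : ℕ} (hq : 0 < q) (hp : p.Coprime q) (F : ℕ → ℝ) (hF : ∀ m, F (m % q) = F m) :
    ∑ a ∈ rr q, F (p * a) = ∑ a ∈ rr q, F a := by
  have hmaps : ∀ a ∈ rr q, (p * a) % q ∈ rr q := by
    intro a ha
    rw [mem_rr] at ha ⊢
    refine ⟨Nat.mod_lt _ hq, ?_⟩
    have h1 : (p * a).Coprime q := Nat.Coprime.mul_left hp ha.2
    unfold Nat.Coprime at h1 ⊢
    rw [Nat.gcd_comm, Nat.gcd_rec] at h1
    exact h1
  have hinj : Set.InjOn (fun a => (p * a) % q) (rr q : Set ℕ) := by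
    intro a ha b hb hab
    rw [mem_coe, mem_rr] at ha hb
    have h1 : p * a ≡ p * b [MOD q] := hab
    have h2 : a ≡ b [MOD q] := Nat.ModEq.cancel_left_of_coprime (by rw [Nat.gcd_comm]; exact hp) h1
    exact Nat.ModEq.eq_of_lt_of_lt h2 ha.1 hb.1
  have hsurj : Set.SurjOn (fun a => (p * a) % q) (rr q : Set ℕ) (rr q : Set ℕ) :=
    Finset.surjOn_of_injOn_of_card_le _ (fun a ha => hmaps a ha) hinj le_rfl
  refine sum_nbij (fun a => (p * a) % q) hmaps hinj hsurj ?_
  intro a _
  exact (hF _).symm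

/-- the pointwise inequality between the scales -/
lemma EE_step {F : ℕ} {P S K : Finset ℕ} (w c : ℕ → ℂ)
    (hP : ∀ p ∈ P, p.Prime ∧ F < p) (hw : ∀ p ∈ P, ‖w p‖ ≤ 1 / p) (hS : ∀ s ∈ S, 0 < s) (hSK : ∀ s ∈ S, s ∈ K)
    (hPK : ∀ s ∈ S, ∀ p ∈ P, p * s ∈ K) (h x : ℝ) :
    WP P ^ 2 * EE h F S c x ≤ 2 * EE h F K (gco (WP P) P w S c) x +
      2 * WP P * ∑ p ∈ P, 1 / (p : ℝ) * EE h F S c (x - Real.log p) := by
  have hW0 := WP_nonneg P
  have hpt : ∀ q a : ℕ, WP P ^ 2 * ‖ggC h S (fun n => c n * ee (n * a / q)) x‖ ^ 2 ≤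
      2 * ‖ggC h K (fun k => gco (WP P) P w S c k * ee (k * a / q)) x‖ ^ 2 +
      2 * WP P * ∑ p ∈ P, 1 / (p : ℝ) *
        ‖ggC h S (fun n => c n * ee (n * ((p * a : ℕ) : ℝ) / q)) (x - Real.log p)‖ ^ 2 := by
    intro q a
    have h1 := gco_tw (W := WP P) (w := w) c (fun p hp => (hP p hp).1.pos) hS hSK hPK h x q a
    set T := ggC h S (fun n => c n * ee (n * a / q)) x
    set G := ggC h K (fun k => gco (WP P) P w S c k * ee (k * a / q)) x
    set U : ℕ → ℂ := fun p => ggC h S (fun n => c n * ee (n * ((p * a : ℕ) : ℝ) / q)) (x - Real.log p) with hU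
    have h2 : (WP P : ℂ) * T = G + ∑ p ∈ P, w p * U p := by rw [h1]; ring
    have h3 : WP P * ‖T‖ ≤ ‖G‖ + ∑ p ∈ P, 1 / (p : ℝ) * ‖U p‖ := by
      calc WP P * ‖T‖ = ‖(WP P : ℂ) * T‖ := by rw [norm_mul, Complex.norm_real, Real.norm_of_nonneg hW0]
        _ ≤ ‖G‖ + ‖∑ p ∈ P, w p * U p‖ := by rw [h2]; exact norm_add_le _ _
        _ ≤ _ := by
          gcongr
          refine (norm_sum_le _ _).trans (sum_le_sum fun p hp => ?_)
          rw [norm_mul]
          exact mul_le_mul_of_nonneg_right (hw p hp) (norm_nonneg _)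
    have h4 : (∑ p ∈ P, 1 / (p : ℝ) * ‖U p‖) ^ 2 ≤ WP P * ∑ p ∈ P, 1 / (p : ℝ) * ‖U p‖ ^ 2 := by
      have h5 := sum_mul_sq_le_sq_mul_sq P (fun p => √(1 / (p : ℝ))) (fun p => √(1 / (p : ℝ)) * ‖U p‖)
      have h6 : ∀ p : ℕ, √(1 / (p : ℝ)) * (√(1 / (p : ℝ)) * ‖U p‖) = 1 / (p : ℝ) * ‖U p‖ := by
        intro p
        rw [← mul_assoc, Real.mul_self_sqrt (by positivity)]
      have h7 : ∀ p : ℕ, √(1 / (p : ℝ)) ^ 2 = 1 / (p : ℝ) := fun p => Real.sq_sqrt (by positivity)
      simp only [h6, mul_pow, h7] at h5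
      exact h5
    have h5 : (WP P * ‖T‖) ^ 2 ≤ (‖G‖ + ∑ p ∈ P, 1 / (p : ℝ) * ‖U p‖) ^ 2 :=
      pow_le_pow_left₀ (by positivity) h3 2
    have h6 : (‖G‖ + ∑ p ∈ P, 1 / (p : ℝ) * ‖U p‖) ^ 2 ≤ 2 * ‖G‖ ^ 2 + 2 * (∑ p ∈ P, 1 / (p : ℝ) * ‖U p‖) ^ 2 := by
      nlinarith [sq_nonneg (‖G‖ - ∑ p ∈ P, 1 / (p : ℝ) * ‖U p‖)]
    rw [mul_pow] at h5
    linarith
  unfold EE
  have h1 : ∀ q ∈ Icc 1 F, WP P ^ 2 * ∑ a ∈ rr q, ‖ggC h S (fun n => c n * ee (n * a / q)) x‖ ^ 2 ≤
      2 * ∑ a ∈ rr q, ‖ggC h K (fun k => gco (WP P) P w S c k * ee (k * a / q)) x‖ ^ 2 +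
      2 * WP P * ∑ p ∈ P, 1 / (p : ℝ) *
        ∑ a ∈ rr q, ‖ggC h S (fun n => c n * ee (n * a / q)) (x - Real.log p)‖ ^ 2 := by
    intro q hq
    rw [mem_Icc] at hq
    have h2 := sum_le_sum fun a (_ : a ∈ rr q) => hpt q a
    rw [← mul_sum, sum_add_distrib, ← mul_sum, ← mul_sum, sum_comm] at h2
    refine h2.trans (le_of_eq ?_)
    congr 2
    apply sum_congr rfl
    intro p hp
    rw [← mul_sum]
    congr 1
    have hcop : p.Coprime q := by
      rw [Nat.Prime.coprime_iff_not_dvd (hP p hp).1]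
      intro hd
      have := Nat.le_of_dvd (by omega) hd
      have := (hP p hp).2
      omega
    exact perm_rr (by omega) hcop
      (fun m => ‖ggC h S (fun n => c n * ee (n * (m : ℝ) / q)) (x - Real.log p)‖ ^ 2) (fun m => by
        simp only [ee_mod (by omega : 0 < q)])
  calc _ = ∑ q ∈ Icc 1 F, WP P ^ 2 * ∑ a ∈ rr q, ‖ggC h S (fun n => c n * ee (n * a / q)) x‖ ^ 2 := by
        rw [mul_sum]
    _ ≤ _ := sum_le_sum h1
    _ = _ := by
      rw [sum_add_distrib, ← mul_sum, ← mul_sum, sum_comm]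
      congr 2
      apply sum_congr rfl
      intro p _
      rw [← mul_sum]

/-- Chebyshev's bound -/
lemma count_le {y z : ℕ} (hy : 2 ≤ y) (t : ℝ) :
    (((PP y z).filter (fun p : ℕ => Real.log p ≤ t)).card : ℝ) * Real.log y ≤ Real.log 4 * Real.exp t := by
  set n := ⌊Real.exp t⌋₊ with hn
  have hy0 : (0 : ℝ) < y := by exact_mod_cast (by omega : 0 < y)
  have hprim : Real.log (primorial n) ≤ Real.log 4 * Real.exp t := by
    have h1 : (primorial n : ℝ) ≤ 4 ^ n := by exact_mod_cast primorial_le_four_pow n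
    have h2 : (0 : ℝ) < primorial n := by exact_mod_cast primorial_pos n
    have h3 := Real.log_le_log h2 h1
    rw [Real.log_pow] at h3
    have h4 : (n : ℝ) ≤ Real.exp t := Nat.floor_le (Real.exp_pos t).le
    have h5 : 0 ≤ Real.log 4 := Real.log_nonneg (by norm_num)
    calc _ ≤ n * Real.log 4 := h3
      _ ≤ Real.exp t * Real.log 4 := mul_le_mul_of_nonneg_right h4 h5
      _ = _ := mul_comm _ _
  refine le_trans ?_ hprim
  have h1 : Real.log (primorial n) = ∑ p ∈ (range (n + 1)).filter Nat.Prime, Real.log p := by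
    unfold primorial
    push_cast
    rw [Real.log_prod]
    intro p hp
    rw [mem_filter] at hp
    exact_mod_cast hp.2.ne_zero
  rw [h1]
  have h2 : (PP y z).filter (fun p : ℕ => Real.log p ≤ t) ⊆ (range (n + 1)).filter Nat.Prime := by
    intro p hp
    rw [mem_filter, mem_PP] at hp
    have hp0 : (0 : ℝ) < p := by exact_mod_cast hp.1.2.pos
    rw [mem_filter, mem_range]
    refine ⟨?_, hp.1.2⟩
    have h3 : (p : ℝ) ≤ Real.exp t := by
      rw [← Real.exp_log hp0]
      exact Real.exp_le_exp.2 hp.2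
    have := Nat.le_floor h3
    omega
  calc _ = ∑ p ∈ (PP y z).filter (fun p : ℕ => Real.log p ≤ t), Real.log y := by
        rw [sum_const, nsmul_eq_mul]
    _ ≤ ∑ p ∈ (PP y z).filter (fun p : ℕ => Real.log p ≤ t), Real.log p := by
        apply sum_le_sum
        intro p hp
        rw [mem_filter, mem_PP] at hp
        exact Real.log_le_log hy0 (by exact_mod_cast hp.1.1.1.le)
    _ ≤ _ := by
        apply sum_le_sum_of_subset_of_nonneg h2
        intro p _ _
        exact Real.log_natCast_nonneg p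

/-- the averages over the translates -/
lemma shift_int {y z : ℕ} (hy : 2 ≤ y) {G : ℝ → ℝ} (hG : Integrable G) (h0 : ∀ x, 0 ≤ G x) (s : ℝ) :
    IntegrableOn (fun x => Real.exp x * ∑ p ∈ PP y z, 1 / (p : ℝ) * G (x - Real.log p)) (Set.Iic s) ∧
    ∫ x in Set.Iic s, Real.exp x * ∑ p ∈ PP y z, 1 / (p : ℝ) * G (x - Real.log p) ≤
      Real.log 4 / Real.log y * Real.exp s * ∫ x, G x := by
  have hlogy : 0 < Real.log y := Real.log_pos (by exact_mod_cast (by omega : 1 < y))
  have hb : ∀ ℓ : ℝ, Integrable (fun x => (if x ≤ s then Real.exp x else 0) * G (x - ℓ)) := by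
    intro ℓ
    refine (hG.comp_sub_right ℓ).bdd_mul (c := Real.exp s) ?_ (Filter.Eventually.of_forall fun x => ?_)
    · apply Measurable.aestronglyMeasurable
      exact Measurable.ite measurableSet_Iic Real.measurable_exp measurable_const
    · split_ifs with h
      · rw [Real.norm_of_nonneg (Real.exp_pos x).le]
        exact Real.exp_le_exp.2 h
      · rw [norm_zero]; exact (Real.exp_pos s).le
  have e1 : ∀ x : ℝ, (Set.Iic s).indicator (fun x => Real.exp x * ∑ p ∈ PP y z, 1 / (p : ℝ) * G (x - Real.log p)) x =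
      ∑ p ∈ PP y z, 1 / (p : ℝ) * ((if x ≤ s then Real.exp x else 0) * G (x - Real.log p)) := by
    intro x
    by_cases h : x ≤ s
    · rw [Set.indicator_of_mem (show x ∈ Set.Iic s from h), if_pos h, mul_sum]
      exact sum_congr rfl fun p _ => by ring
    · rw [Set.indicator_of_notMem (show x ∉ Set.Iic s from h), if_neg h]
      simp
  have hint : Integrable (fun x => ∑ p ∈ PP y z, 1 / (p : ℝ) *
      ((if x ≤ s then Real.exp x else 0) * G (x - Real.log p))) :=
    integrable_finsetSum _ fun p _ => (hb _).const_mul _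
  constructor
  · rw [← integrable_indicator_iff measurableSet_Iic]
    exact hint.congr (Filter.Eventually.of_forall fun x => (e1 x).symm)
  · rw [← integral_indicator measurableSet_Iic]
    simp only [e1]
    rw [integral_finsetSum _ fun p _ => (hb _).const_mul _]
    have e2 : ∀ p ∈ PP y z, ∫ x, 1 / (p : ℝ) * ((if x ≤ s then Real.exp x else 0) * G (x - Real.log p)) =
        ∫ u, (if Real.log p ≤ s - u then Real.exp u else 0) * G u := by
      intro p hp
      rw [mem_PP] at hp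
      have hp0 : (0 : ℝ) < p := by exact_mod_cast hp.2.pos
      rw [← integral_sub_right_eq_self (fun u => (if Real.log p ≤ s - u then Real.exp u else 0) * G u) (Real.log p)]
      congr 1
      ext x
      by_cases h : x ≤ s
      · rw [if_pos h, if_pos (by linarith), Real.exp_sub, Real.exp_log hp0]
        ring
      · rw [if_neg h, if_neg (by linarith)]
        ring
    rw [sum_congr rfl e2]
    have hb2 : ∀ p ∈ PP y z, Integrable (fun u => (if Real.log p ≤ s - u then Real.exp u else 0) * G u) := by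
      intro p _
      refine hG.bdd_mul (c := Real.exp (s - Real.log p)) ?_ (Filter.Eventually.of_forall fun x => ?_)
      · apply Measurable.aestronglyMeasurable
        have hm : MeasurableSet {u : ℝ | Real.log p ≤ s - u} :=
          measurableSet_le measurable_const (by fun_prop)
        exact Measurable.ite hm Real.measurable_exp measurable_const
      · split_ifs with h
        · rw [Real.norm_of_nonneg (Real.exp_pos x).le]
          exact Real.exp_le_exp.2 (by linarith)
        · rw [norm_zero]; exact (Real.exp_pos _).le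
    rw [← integral_finsetSum _ hb2, ← integral_const_mul]
    apply integral_mono (integrable_finsetSum _ hb2) (hG.const_mul _)
    intro u
    simp only
    rw [← sum_mul]
    apply mul_le_mul_of_nonneg_right _ (h0 u)
    have e3 : ∑ p ∈ PP y z, (if Real.log p ≤ s - u then Real.exp u else 0) =
        (((PP y z).filter (fun p : ℕ => Real.log p ≤ s - u)).card : ℝ) * Real.exp u := by
      rw [← sum_filter, sum_const, nsmul_eq_mul]
    rw [e3]
    have h1 := count_le (y := y) (z := z) hy (s - u)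
    have h2 : (((PP y z).filter (fun p : ℕ => Real.log p ≤ s - u)).card : ℝ) ≤
        Real.log 4 * Real.exp (s - u) / Real.log y := by
      rw [le_div_iff₀ hlogy]; exact h1
    calc _ ≤ Real.log 4 * Real.exp (s - u) / Real.log y * Real.exp u :=
          mul_le_mul_of_nonneg_right h2 (Real.exp_pos u).le
      _ = Real.log 4 / Real.log y * (Real.exp (s - u) * Real.exp u) := by ring
      _ = _ := by rw [← Real.exp_add]; ring_nf

/-- the large sieve with exponential weights -/
lemma ls_exp {F : ℕ} {K : Finset ℕ} (hK : ∀ n ∈ K, 0 < n) (u : ℕ → ℂ) {h : ℝ} (h0 : 0 < h) (h1 : h ≤ 1) (s : ℝ) :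
    ∫ x in Set.Iic s, Real.exp x * EE h F K u x ≤
      ∑ n ∈ K.filter (fun n : ℕ => Real.log n ≤ s + h),
        6 * (15 * n + (1 + (F : ℝ) ^ 2) / h) * (Real.exp 1 * n) * ‖u n‖ ^ 2 := by
  have hv2 : Integrable fun y => tri h y ^ 2 := by
    have : (fun y => tri h y ^ 2) = fun y => tri h y * tri h y := by ext y; ring
    rw [this]
    refine (tri_integrable h0).bdd_mul (c := 1 / h) (tri_integrable h0).aestronglyMeasurable
      (Filter.Eventually.of_forall fun y => ?_)
    rw [Real.norm_of_nonneg (tri_nonneg h0 y)]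
    exact tri_le h0 y
  have hv2s : ∫ y, tri h y ^ 2 ≤ 1 / h := by
    calc ∫ y, tri h y ^ 2 ≤ ∫ y, 1 / h * tri h y := by
          apply integral_mono hv2 ((tri_integrable h0).const_mul _)
          intro y
          simp only
          rw [sq]
          exact mul_le_mul_of_nonneg_right (tri_le h0 y) (tri_nonneg h0 y)
      _ = 1 / h := by rw [integral_const_mul, integral_tri h0, mul_one]
  have hti : ∀ n : ℕ, Integrable fun x : ℝ => tri h (x - Real.log n) ^ 2 := fun n =>
    hv2.comp_sub_right (Real.log n)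
  have hpt : ∀ x ∈ Set.Iic s, Real.exp x * EE h F K u x ≤
      ∑ n ∈ K.filter (fun n : ℕ => Real.log n ≤ s + h),
        6 * (15 * h * n + 1 + (F : ℝ) ^ 2) * (Real.exp 1 * n) * (‖u n‖ ^ 2 * tri h (x - Real.log n) ^ 2) := by
    intro x hx
    have hx' : x ≤ s := hx
    have h2 : EE h F K u x ≤ ∑ n ∈ K, 6 * (15 * h * n + 1 + (F : ℝ) ^ 2) *
        (‖u n‖ ^ 2 * tri h (x - Real.log n) ^ 2) :=
      ls_window F K hK u (tri h) h0 h1 (fun y hy => tri_zero_of h0 hy.le) x
    have h3 := mul_le_mul_of_nonneg_left h2 (Real.exp_pos x).le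
    refine h3.trans ?_
    rw [mul_sum, sum_filter]
    apply sum_le_sum
    intro n hn
    have hn0 : (0 : ℝ) < n := by exact_mod_cast hK n hn
    by_cases h4 : |x - Real.log n| < h
    · have h5 := abs_lt.1 h4
      rw [if_pos (by linarith)]
      have h6 : Real.exp x ≤ Real.exp 1 * n := by
        calc Real.exp x ≤ Real.exp (1 + Real.log n) := Real.exp_le_exp.2 (by linarith)
          _ = Real.exp 1 * n := by rw [Real.exp_add, Real.exp_log hn0]
      have h7 : 0 ≤ 6 * (15 * h * n + 1 + (F : ℝ) ^ 2) * (‖u n‖ ^ 2 * tri h (x - Real.log n) ^ 2) := by positivity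
      calc _ ≤ Real.exp 1 * n * (6 * (15 * h * n + 1 + (F : ℝ) ^ 2) * (‖u n‖ ^ 2 * tri h (x - Real.log n) ^ 2)) :=
            mul_le_mul_of_nonneg_right h6 h7
        _ = _ := by ring
    · push Not at h4
      rw [tri_zero_of h0 h4]
      have : (0 : ℝ) ≤ (if Real.log n ≤ s + h then 6 * (15 * h * n + 1 + (F : ℝ) ^ 2) * (Real.exp 1 * n) *
        (‖u n‖ ^ 2 * 0 ^ 2) else 0) := by split_ifs <;> simp
      refine le_trans (le_of_eq ?_) this
      ring
  have hR : Integrable (fun x => ∑ n ∈ K.filter (fun n : ℕ => Real.log n ≤ s + h),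
        6 * (15 * h * n + 1 + (F : ℝ) ^ 2) * (Real.exp 1 * n) * (‖u n‖ ^ 2 * tri h (x - Real.log n) ^ 2)) :=
    integrable_finsetSum _ fun n _ => ((hti n).const_mul _).const_mul _
  have hR0 : ∀ x, 0 ≤ ∑ n ∈ K.filter (fun n : ℕ => Real.log n ≤ s + h),
        6 * (15 * h * n + 1 + (F : ℝ) ^ 2) * (Real.exp 1 * n) * (‖u n‖ ^ 2 * tri h (x - Real.log n) ^ 2) :=
    fun x => sum_nonneg fun n _ => by positivity
  calc ∫ x in Set.Iic s, Real.exp x * EE h F K u x ≤ ∫ x in Set.Iic s,
        ∑ n ∈ K.filter (fun n : ℕ => Real.log n ≤ s + h),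
        6 * (15 * h * n + 1 + (F : ℝ) ^ 2) * (Real.exp 1 * n) * (‖u n‖ ^ 2 * tri h (x - Real.log n) ^ 2) :=
        setIntegral_mono_on (expEE_int h0 F K u s) hR.integrableOn measurableSet_Iic hpt
    _ ≤ ∫ x, ∑ n ∈ K.filter (fun n : ℕ => Real.log n ≤ s + h),
        6 * (15 * h * n + 1 + (F : ℝ) ^ 2) * (Real.exp 1 * n) * (‖u n‖ ^ 2 * tri h (x - Real.log n) ^ 2) :=
        setIntegral_le_integral hR (Filter.Eventually.of_forall hR0)
    _ = ∑ n ∈ K.filter (fun n : ℕ => Real.log n ≤ s + h),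
        6 * (15 * h * n + 1 + (F : ℝ) ^ 2) * (Real.exp 1 * n) * (‖u n‖ ^ 2 * ∫ y, tri h y ^ 2) := by
        rw [integral_finsetSum _ fun n _ => ((hti n).const_mul _).const_mul _]
        apply sum_congr rfl
        intro n _
        rw [integral_const_mul, integral_const_mul]
        congr 2
        exact integral_sub_right_eq_self (fun y => tri h y ^ 2) (Real.log n)
    _ ≤ _ := by
        apply sum_le_sum
        intro n _
        have h3 : ‖u n‖ ^ 2 * ∫ y, tri h y ^ 2 ≤ ‖u n‖ ^ 2 * (1 / h) :=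
          mul_le_mul_of_nonneg_left hv2s (by positivity)
        calc 6 * (15 * h * n + 1 + (F : ℝ) ^ 2) * (Real.exp 1 * n) * (‖u n‖ ^ 2 * ∫ y, tri h y ^ 2)
            ≤ 6 * (15 * h * n + 1 + (F : ℝ) ^ 2) * (Real.exp 1 * n) * (‖u n‖ ^ 2 * (1 / h)) :=
              mul_le_mul_of_nonneg_left h3 (by positivity)
          _ = _ := by field_simp; ring

end Pool.Agent.TH823.EL
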