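import Pool.Agent.H49.G.R_seed8.TH823.EL.Win
import Pool.Agent.H49.G.R_seed8.TH823.PS.Corr
import Pool.Agent.H49.G.R_seed8.H373R2.T7.Lin
import Pool.Agent.H49.G.R_seed8.W93.MC

set_option autoImplicit false

/-!
# The minor arcs: bilinear sums over the primes of a window
-/

open Finset MeasureTheory
open scoped Real
open Pool.Agent.Helper112

namespace Pool.Agent.TH823.EL

open Pool.Agent.TH823.PS

lemma dyadic_sum (F : ℕ → ℂ) (J : ℕ) :
    ∑ m ∈ Ioc 1 (2 ^ J), F m = ∑ j ∈ range J, ∑ m ∈ Ioc (2 ^ j) (2 * 2 ^ j), F m := by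
  induction J with
  | zero => simp
  | succ J ih =>
    rw [sum_range_succ, ← ih]
    have h1 : (2 : ℕ) ^ (J + 1) = 2 * 2 ^ J := by ring
    have h2 : (1 : ℕ) ≤ 2 ^ J := Nat.one_le_two_pow
    rw [h1, ← sum_union]
    · congr 1
      ext m
      simp only [mem_Ioc, mem_union]
      omega
    · rw [disjoint_left]
      intro m hm hm'
      rw [mem_Ioc] at hm hm'
      omega

/-- the convolution with the primes of a window -/
noncomputable def conv (P : Finset ℕ) (w f : ℕ → ℂ) (n : ℕ) : ℂ := ∑ p ∈ P, if p ∣ n then w p * f (n / p) else 0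

lemma conv_sum (P : Finset ℕ) (hP : ∀ p ∈ P, 0 < p) (w f : ℕ → ℂ) (Y : ℕ) (α : ℝ) :
    ∑ n ∈ Icc 1 Y, conv P w f n * ee (n * α) =
      ∑ m ∈ Icc 1 Y, ∑ p ∈ P, f m * w p * (if 0 < m * p ∧ m * p ≤ Y then ee (((m * p : ℕ) : ℝ) * α) else 0) := by
  unfold conv
  simp only [sum_mul]
  rw [sum_comm, sum_comm (s := Icc 1 Y)]
  apply sum_congr rfl
  intro p hp
  have hp0 := hP p hp
  have h1 : ∀ n : ℕ, (if p ∣ n then w p * f (n / p) else 0) * ee (n * α) =
      if p ∣ n then w p * f (n / p) * ee (n * α) else 0 := fun n => by split_ifs <;> simp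
  have h2 : ∀ m ∈ Icc 1 Y, f m * w p * (if 0 < m * p ∧ m * p ≤ Y then ee (((m * p : ℕ) : ℝ) * α) else 0) =
      if m * p ≤ Y then f m * w p * ee (((m * p : ℕ) : ℝ) * α) else 0 := by
    intro m hm
    rw [mem_Icc] at hm
    have : 0 < m * p := Nat.mul_pos (by omega) hp0
    by_cases h : m * p ≤ Y
    · rw [if_pos ⟨this, h⟩, if_pos h]
    · rw [if_neg (fun h' => h h'.2), if_neg h, mul_zero]
  simp only [h1]
  rw [sum_congr rfl h2, ← sum_filter, ← sum_filter]
  refine sum_nbij' (fun n => n / p) (fun m => m * p) ?_ ?_ ?_ ?_ ?_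
  · intro n hn
    rw [mem_filter, mem_Icc] at hn
    obtain ⟨⟨h3, h4⟩, k, rfl⟩ := hn
    rw [mem_filter, mem_Icc, Nat.mul_div_cancel_left _ hp0]
    have hk : 0 < k := Nat.pos_of_ne_zero (by rintro rfl; simp at h3)
    refine ⟨⟨hk, ?_⟩, by rw [mul_comm]; exact h4⟩
    exact (Nat.le_mul_of_pos_left k hp0).trans h4
  · intro m hm
    rw [mem_filter, mem_Icc] at hm
    rw [mem_filter, mem_Icc]
    exact ⟨⟨Nat.mul_pos (by omega) hp0, hm.2⟩, dvd_mul_left p m⟩
  · intro n hn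
    rw [mem_filter] at hn
    exact Nat.div_mul_cancel hn.2
  · intro m _
    exact Nat.mul_div_cancel m hp0
  · intro n hn
    rw [mem_filter] at hn
    rw [Nat.div_mul_cancel hn.2]
    ring

/-- **the bilinear bound** -/
theorem bilin_minor {Y V q y z : ℕ} {c : ℤ} {α : ℝ} (hV : 1 ≤ V) (hVq : V < q) (hqY : q * V ≤ Y)
    (hc : IsCoprime c (q : ℤ)) (hα : |α - c / q| ≤ 1 / (q : ℝ) ^ 2) (hVy : V ≤ y) (hzY : z * V ≤ Y)
    (hlog : 1 ≤ Real.log Y) (w f : ℕ → ℂ) (hw : ∀ p, ‖w p‖ ≤ 1) (hf : ∀ n, ‖f n‖ ≤ 1) :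
    ‖∑ n ∈ Icc 1 Y, conv (PP y z) w f n * ee (n * α)‖ ≤ 100 * Real.log Y ^ 3 * Y / √(V : ℝ) := by
  have hPpos : ∀ p ∈ PP y z, 0 < p := fun p hp => (mem_PP.1 hp).2.pos
  rw [conv_sum (PP y z) hPpos w f Y α]
  have hVr : (1 : ℝ) ≤ V := by exact_mod_cast hV
  have hV0 : (0 : ℝ) < V := by linarith
  have hq1 : 1 ≤ q := by omega
  have hqr : (1 : ℝ) ≤ q := by exact_mod_cast hq1
  have hq0 : (0 : ℝ) < q := by linarith
  have hY1 : 1 ≤ Y := by
    have : 1 ≤ q * V := Nat.mul_pos hq1 hV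
    omega
  have hYr : (0 : ℝ) < Y := by exact_mod_cast hY1
  set ℓ := Real.log Y with hℓ
  set J := Nat.log 2 Y + 1 with hJ
  have hYJ : Y < 2 ^ J := Nat.lt_pow_succ_log_self (by norm_num) Y
  have hqY' : q ≤ Y := (Nat.le_mul_of_pos_right q hV).trans hqY
  have hlogq : Real.log q ≤ ℓ := Real.log_le_log hq0 (by exact_mod_cast hqY')
  have hlogq0 : 0 ≤ Real.log q := Real.log_nonneg hqr
  set b : ℕ → ℂ := fun l => if l ∈ PP y z then w l else 0 with hb
  have hb1 : ∀ l, ‖b l‖ ≤ 1 := by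
    intro l
    rw [hb]
    simp only
    split_ifs
    · exact hw l
    · rw [norm_zero]; exact zero_le_one
  set F : ℕ → ℕ → ℂ := fun m l => f m * b l * (if 0 < m * l ∧ m * l ≤ Y then ee (((m * l : ℕ) : ℝ) * α) else 0) with hF
  have hFz : ∀ m l, Y < m * l → F m l = 0 := by
    intro m l h
    rw [hF]
    simp only
    rw [if_neg (by omega), mul_zero]
  have hFn : ∀ m l, ‖F m l‖ ≤ 1 := by
    intro m l
    rw [hF]
    simp only
    rw [norm_mul, norm_mul]
    have h1 : ‖(if 0 < m * l ∧ m * l ≤ Y then ee (((m * l : ℕ) : ℝ) * α) else 0)‖ ≤ 1 := by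
      split_ifs
      · rw [← dav_ee]; exact (Pool.Agent.H807R2.Dav.norm_ee _).le
      · rw [norm_zero]; exact zero_le_one
    exact mul_le_one₀ (mul_le_one₀ (hf m) (norm_nonneg _) (hb1 l)) (norm_nonneg _) h1
  have hinner : ∀ m, 1 ≤ m → ∑ p ∈ PP y z, f m * w p *
      (if 0 < m * p ∧ m * p ≤ Y then ee (((m * p : ℕ) : ℝ) * α) else 0) = ∑ l ∈ Ioc 1 (2 ^ J), F m l := by
    intro m hm
    have h1 : ∀ p ∈ PP y z, f m * w p * (if 0 < m * p ∧ m * p ≤ Y then ee (((m * p : ℕ) : ℝ) * α) else 0) = F m p := by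
      intro p hp
      rw [hF, hb]
      simp only
      rw [if_pos hp]
    rw [sum_congr rfl h1]
    apply sum_subset_zero_on_sdiff
    · intro p hp
      rw [mem_PP] at hp
      rw [mem_Ioc]
      have h2 := hp.2.one_lt
      have h3 : z ≤ Y := (Nat.le_mul_of_pos_right z hV).trans hzY
      omega
    · intro l hl
      rw [mem_sdiff] at hl
      rw [hF, hb]
      simp only
      rw [if_neg hl.2]
      ring
    · intro _ _; rfl
  -- the terms with `m = 1`
  have hsplit : ∑ m ∈ Icc 1 Y, ∑ p ∈ PP y z, f m * w p *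
      (if 0 < m * p ∧ m * p ≤ Y then ee (((m * p : ℕ) : ℝ) * α) else 0) =
      ∑ p ∈ PP y z, f 1 * w p * (if 0 < 1 * p ∧ 1 * p ≤ Y then ee (((1 * p : ℕ) : ℝ) * α) else 0) +
      ∑ j ∈ range J, ∑ i ∈ range J, ∑ m ∈ Ioc (2 ^ j) (2 * 2 ^ j), ∑ l ∈ Ioc (2 ^ i) (2 * 2 ^ i), F m l := by
    have h1 : Icc 1 Y = insert 1 (Ioc 1 Y) := by
      ext m; simp only [mem_Icc, mem_insert, mem_Ioc]; omega
    rw [h1, sum_insert (by simp)]
    congr 1
    have h2 : ∑ m ∈ Ioc 1 Y, ∑ p ∈ PP y z, f m * w p *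
        (if 0 < m * p ∧ m * p ≤ Y then ee (((m * p : ℕ) : ℝ) * α) else 0) =
        ∑ m ∈ Ioc 1 (2 ^ J), ∑ l ∈ Ioc 1 (2 ^ J), F m l := by
      have h3 : ∑ m ∈ Ioc 1 Y, ∑ p ∈ PP y z, f m * w p *
          (if 0 < m * p ∧ m * p ≤ Y then ee (((m * p : ℕ) : ℝ) * α) else 0) =
          ∑ m ∈ Ioc 1 Y, ∑ l ∈ Ioc 1 (2 ^ J), F m l :=
        sum_congr rfl fun m hm => hinner m (by rw [mem_Ioc] at hm; omega)
      rw [h3]
      apply sum_subset_zero_on_sdiff
      · intro m hm
        rw [mem_Ioc] at hm ⊢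
        omega
      · intro m hm
        rw [mem_sdiff, mem_Ioc, mem_Ioc] at hm
        apply sum_eq_zero
        intro l hl
        rw [mem_Ioc] at hl
        apply hFz
        have h4 : Y < m := by omega
        calc Y < m := h4
          _ = m * 1 := (mul_one m).symm
          _ ≤ m * l := Nat.mul_le_mul_left m (by omega)
      · intro _ _; rfl
    rw [h2, dyadic_sum]
    apply sum_congr rfl
    intro j _
    rw [sum_comm, dyadic_sum]
    apply sum_congr rfl
    intro i _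
    rw [sum_comm]
  rw [hsplit]
  -- the blocks
  set T : ℝ := Real.sqrt (129 * ℓ / V) * Y with hT
  have hT0 : 0 ≤ T := by positivity
  have hblock : ∀ j i : ℕ, ‖∑ m ∈ Ioc (2 ^ j) (2 * 2 ^ j), ∑ l ∈ Ioc (2 ^ i) (2 * 2 ^ i), F m l‖ ≤ T := by
    intro j i
    by_cases h1 : ∃ p ∈ Ioc (2 ^ i) (2 * 2 ^ i), p ∈ PP y z
    · by_cases h2 : Y ≤ 2 ^ j * 2 ^ i
      · rw [sum_eq_zero]
        · rw [norm_zero]; exact hT0
        · intro m hm
          apply sum_eq_zero
          intro l hl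
          rw [mem_Ioc] at hm hl
          apply hFz
          calc Y ≤ 2 ^ j * 2 ^ i := h2
            _ < m * l := Nat.mul_lt_mul_of_lt_of_lt hm.1 hl.1
      · push Not at h2
        obtain ⟨p, hp1, hp2⟩ := h1
        rw [mem_Ioc] at hp1
        rw [mem_PP] at hp2
        set M := 2 ^ j with hM
        set L := 2 ^ i with hL
        have hM0 : (0 : ℝ) < M := by rw [hM]; positivity
        have hL0 : (0 : ℝ) < L := by rw [hL]; positivity
        have hML : (M : ℝ) * L ≤ Y := by exact_mod_cast h2.le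
        have hLy : (V : ℝ) ≤ 2 * L := by exact_mod_cast (by omega : V ≤ 2 * L)
        have hLz : (L : ℝ) * V ≤ Y := by
          have : L * V ≤ Y := (Nat.mul_le_mul_right V (by omega : L ≤ z)).trans hzY
          exact_mod_cast this
        have hqVr : (q : ℝ) * V ≤ Y := by exact_mod_cast hqY
        have h3 := Pool.Agent.H373R2.T7.typeII_lin hq1 hc hα 0 Y M L f b
        simp only [dav_ee] at h3
        have h4 : ∑ m ∈ Ioc M (2 * M), ‖f m‖ ^ 2 ≤ M := by
          refine (sum_le_sum fun m _ => pow_le_one₀ (norm_nonneg _) (hf m)).trans ?_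
          rw [sum_const, Nat.card_Ioc, nsmul_eq_mul, mul_one]
          have : 2 * M - M = M := by omega
          rw [this]
        have h5 : ∑ l ∈ Ioc L (2 * L), ‖b l‖ ^ 2 ≤ L := by
          refine (sum_le_sum fun m _ => pow_le_one₀ (norm_nonneg _) (hb1 m)).trans ?_
          rw [sum_const, Nat.card_Ioc, nsmul_eq_mul, mul_one]
          have : 2 * L - L = L := by omega
          rw [this]
        have h6 : ‖∑ m ∈ Ioc M (2 * M), ∑ l ∈ Ioc L (2 * L), F m l‖ ^ 2 ≤
            M * (L * (((L : ℝ) / q + 1) * (39 * M + 3 * q * (1 + Real.log q)))) := by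
          refine h3.trans ?_
          have h8 : 0 ≤ ((L : ℝ) / q + 1) * (39 * M + 3 * q * (1 + Real.log q)) := by positivity
          apply mul_le_mul h4 _ (by positivity) hM0.le
          exact mul_le_mul_of_nonneg_right h5 h8
        have h7 : M * (L * (((L : ℝ) / q + 1) * (39 * M + 3 * q * (1 + Real.log q)))) ≤ T ^ 2 := by
          have hT2 : T ^ 2 = 129 * ℓ / V * (Y : ℝ) ^ 2 := by
            rw [hT, mul_pow, Real.sq_sqrt (by positivity)]
          rw [hT2]
          have e1 : M * (L * (((L : ℝ) / q + 1) * (39 * M + 3 * q * (1 + Real.log q)))) =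
              (M * L) * (39 * (M * L) / q + 39 * M + 3 * (L + q) * (1 + Real.log q)) := by
            field_simp
          rw [e1]
          have a1 : 39 * ((M : ℝ) * L) / q ≤ 39 * (Y / V) := by
            rw [mul_div_assoc]
            apply mul_le_mul_of_nonneg_left _ (by norm_num)
            apply div_le_div₀ hYr.le hML hV0
            exact_mod_cast hVq.le
          have a2 : 39 * (M : ℝ) ≤ 78 * (Y / V) := by
            rw [mul_div_assoc', le_div_iff₀ hV0]
            have : (M : ℝ) * V ≤ 2 * (M * L) := by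
              have := mul_le_mul_of_nonneg_left hLy hM0.le
              linarith
            linarith
          have a3 : 3 * ((L : ℝ) + q) * (1 + Real.log q) ≤ 6 * (Y / V) * (1 + ℓ) := by
            have b1 : (L : ℝ) ≤ Y / V := by rw [le_div_iff₀ hV0]; exact hLz
            have b2 : (q : ℝ) ≤ Y / V := by rw [le_div_iff₀ hV0]; exact hqVr
            apply mul_le_mul (by linarith) (by linarith) (by linarith) (by positivity)
          have a4 : 39 * ((M : ℝ) * L) / q + 39 * M + 3 * (L + q) * (1 + Real.log q) ≤ 129 * ℓ / V * Y := by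
            have b3 : 129 * ℓ / V * (Y : ℝ) = 129 * ℓ * (Y / V) := by ring
            rw [b3]
            have b4 : 0 ≤ (Y : ℝ) / V := by positivity
            have b5 : (Y : ℝ) / V ≤ ℓ * (Y / V) := le_mul_of_one_le_left b4 hlog
            nlinarith
          calc (M : ℝ) * L * (39 * (M * L) / q + 39 * M + 3 * (L + q) * (1 + Real.log q)) ≤
                Y * (129 * ℓ / V * Y) := by
                apply mul_le_mul hML a4 _ hYr.le
                positivity
            _ = _ := by ring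
        exact abs_le_of_sq_le_sq' (h6.trans h7) hT0 |>.2
    · push Not at h1
      rw [sum_eq_zero]
      · rw [norm_zero]; exact hT0
      · intro m _
        apply sum_eq_zero
        intro l hl
        rw [hF, hb]
        simp only
        rw [if_neg (h1 l hl)]
        ring
  have hone : ‖∑ p ∈ PP y z, f 1 * w p * (if 0 < 1 * p ∧ 1 * p ≤ Y then ee (((1 * p : ℕ) : ℝ) * α) else 0)‖ ≤
      Y / √(V : ℝ) := by
    have h1 : ‖∑ p ∈ PP y z, f 1 * w p * (if 0 < 1 * p ∧ 1 * p ≤ Y then ee (((1 * p : ℕ) : ℝ) * α) else 0)‖ ≤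
        (PP y z).card := by
      refine (norm_sum_le _ _).trans ?_
      have h2 : ∀ p ∈ PP y z, ‖f 1 * w p * (if 0 < 1 * p ∧ 1 * p ≤ Y then ee (((1 * p : ℕ) : ℝ) * α) else 0)‖ ≤ 1 := by
        intro p hp
        have h3 := hFn 1 p
        rw [hF, hb] at h3
        simp only [if_pos hp] at h3
        exact h3
      refine (sum_le_sum h2).trans ?_
      rw [sum_const, nsmul_eq_mul, mul_one]
    have h2 : (PP y z).card ≤ z := by
      unfold PP
      refine (card_filter_le _ _).trans ?_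
      rw [Nat.card_Ioc]; omega
    have h3 : ((PP y z).card : ℝ) ≤ Y / V := by
      rw [le_div_iff₀ hV0]
      have : (PP y z).card * V ≤ Y := (Nat.mul_le_mul_right V h2).trans hzY
      exact_mod_cast this
    refine h1.trans (h3.trans ?_)
    apply div_le_div_of_nonneg_left hYr.le (Real.sqrt_pos.2 hV0)
    rw [Real.sqrt_le_left hV0.le]
    exact le_self_pow₀ hVr (by norm_num)
  have hblocks : ‖∑ j ∈ range J, ∑ i ∈ range J, ∑ m ∈ Ioc (2 ^ j) (2 * 2 ^ j), ∑ l ∈ Ioc (2 ^ i) (2 * 2 ^ i), F m l‖ ≤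
      (J : ℝ) ^ 2 * T := by
    refine (norm_sum_le _ _).trans ?_
    have h1 : ∀ j ∈ range J, ‖∑ i ∈ range J, ∑ m ∈ Ioc (2 ^ j) (2 * 2 ^ j), ∑ l ∈ Ioc (2 ^ i) (2 * 2 ^ i), F m l‖ ≤
        J * T := by
      intro j _
      refine (norm_sum_le _ _).trans ((sum_le_sum fun i _ => hblock j i).trans ?_)
      rw [sum_const, card_range, nsmul_eq_mul]
    refine (sum_le_sum h1).trans ?_
    rw [sum_const, card_range, nsmul_eq_mul]
    exact le_of_eq (by ring)
  have hJ2 : (J : ℝ) ≤ 5 / 2 * ℓ := by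
    have h1 : (Nat.log 2 Y : ℝ) * Real.log 2 ≤ ℓ := by
      rw [← Real.log_pow]
      apply Real.log_le_log (by positivity)
      exact_mod_cast Nat.pow_log_le_self 2 (by omega)
    have h2 : (2 : ℝ) / 3 ≤ Real.log 2 := by
      have := Real.log_two_gt_d9
      linarith
    have h3 : (0 : ℝ) ≤ Nat.log 2 Y := Nat.cast_nonneg _
    have h4 : (Nat.log 2 Y : ℝ) * (2 / 3) ≤ ℓ := (mul_le_mul_of_nonneg_left h2 h3).trans h1
    rw [hJ]; push_cast
    linarith
  have hTle : T ≤ 12 * ℓ * Y / √(V : ℝ) := by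
    have h1 : Real.sqrt (129 * ℓ / V) ≤ 12 * ℓ / √(V : ℝ) := by
      rw [Real.sqrt_div (by positivity)]
      apply div_le_div_of_nonneg_right _ (Real.sqrt_nonneg _)
      rw [Real.sqrt_le_left (by positivity)]
      nlinarith
    rw [hT]
    calc _ ≤ 12 * ℓ / √(V : ℝ) * Y := mul_le_mul_of_nonneg_right h1 hYr.le
      _ = _ := by ring
  have hsV : 0 < √(V : ℝ) := Real.sqrt_pos.2 hV0
  have hfin : (J : ℝ) ^ 2 * T ≤ (5 / 2 * ℓ) ^ 2 * (12 * ℓ * Y / √(V : ℝ)) := by
    apply mul_le_mul _ hTle hT0 (by positivity)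
    exact pow_le_pow_left₀ (Nat.cast_nonneg _) hJ2 2
  refine (norm_add_le _ _).trans ((add_le_add hone (hblocks.trans hfin)).trans ?_)
  have e1 : (5 / 2 * ℓ) ^ 2 * (12 * ℓ * Y / √(V : ℝ)) = 75 * ℓ ^ 3 * (Y / √(V : ℝ)) := by ring
  have e2 : 100 * ℓ ^ 3 * Y / √(V : ℝ) = 100 * ℓ ^ 3 * (Y / √(V : ℝ)) := by ring
  rw [e1, e2]
  have h1 : 0 ≤ Y / √(V : ℝ) := by positivity
  have h2 : 1 ≤ ℓ ^ 3 := one_le_pow₀ hlog
  have h3 : Y / √(V : ℝ) ≤ ℓ ^ 3 * (Y / √(V : ℝ)) := le_mul_of_one_le_left h1 h2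
  linarith

end Pool.Agent.TH823.EL
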