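import Pool.Agent.H49.G.R_seed8.TH823.EL.Win

set_option autoImplicit false

/-!
# The energy on a long range of scales
-/

open Finset MeasureTheory
open scoped Real
open Pool.Agent.Helper112

namespace Pool.Agent.TH823.EL

open Pool.Agent.TH823.PS Pool.Agent.W66 Pool.Agent.W66L

/-- `w` does not pretend to be a character times an Archimedean character on the primes in `(y, z]` -/
def NPW (c : ℝ) (Q y z : ℕ) (w : ℕ → ℂ) : Prop :=
  ∀ (q : ℕ) [NeZero q], q ≤ Q → ∀ χ : DirichletCharacter ℂ q, ∀ t : ℝ, |t| ≤ (Q : ℝ) ^ 4 →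
    ∑ p ∈ PP y z, (w p * χ (p : ZMod q) * Complex.exp (-(((t * Real.log p : ℝ) : ℂ) * Complex.I))).re / p ≤
      (1 - c) * WP (PP y z)

lemma WP_eq (y z : ℕ) : WP (PP y z) = WW y z := rfl

lemma mult_lower {q : ℕ} (χ : DirichletCharacter ℂ q) (w : ℕ → ℂ) (y z : ℕ) (ξ : ℝ) :
    WP (PP y z) - ∑ p ∈ PP y z, (w p * χ (p : ZMod q) *
      Complex.exp (-(((2 * π * ξ * Real.log p : ℝ) : ℂ) * Complex.I))).re / p ≤
      ‖mult (WP (PP y z)) (PP y z) (fun p => w p * χ (p : ZMod q) / p) ξ‖ := by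
  refine le_trans (le_of_eq ?_) (Complex.re_le_norm _)
  unfold mult
  rw [Complex.sub_re, Complex.ofReal_re, Complex.re_sum]
  congr 1
  apply sum_congr rfl
  intro p _
  have : w p * χ (p : ZMod q) / (p : ℂ) * Complex.exp (-(((2 * π * ξ * Real.log p : ℝ) : ℂ) * Complex.I)) =
      (w p * χ (p : ZMod q) * Complex.exp (-(((2 * π * ξ * Real.log p : ℝ) : ℂ) * Complex.I))) / ((p : ℝ) : ℂ) := by
    push_cast; ring
  rw [this, Complex.div_ofReal_re]

theorem energy_small : ∀ c η : ℝ, 0 < c → c ≤ 1 → 0 < η → ∃ τ0 : ℝ, 0 < τ0 ∧ ∃ E1 : ℕ, ∀ E : ℕ, E1 ≤ E →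
    ∃ B1 : ℕ, ∀ B : ℕ, B1 ≤ B →
    ∃ Q1 : ℕ, ∀ Q : ℕ, Q1 ≤ Q → ∀ (w f : ℕ → ℂ) (τ : ℝ), 0 ≤ τ → τ ≤ τ0 → Win (Q ^ 6) (Q ^ (6 * E)) τ w f →
      NPW c Q (Q ^ 6) (Q ^ (6 * E)) w →
    ∫ x, EE (1 / (Q : ℝ) ^ 3) Q (Ioc (Q ^ (6 * E)) (Q ^ B)) (fun n => f n / n) x ≤
      η * (B * Real.log Q) := by
  intro c η hc hc1 hη
  obtain ⟨CW, hCW, hW⟩ := WW_est
  set θ : ℝ := η * c ^ 2 / 10 ^ 6 with hθ
  have hθ0 : 0 < θ := by positivity
  -- the size of `W`
  set W0 : ℝ := 1 + 1 / θ with hW0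
  have hW0p : 0 < W0 := by positivity
  obtain ⟨E1, hE1⟩ := exists_nat_ge (Real.exp (W0 + CW))
  refine ⟨min 1 (Real.sqrt (η * c ^ 2 / 10 ^ 4)), by positivity, E1 + 1, fun E hE => ?_⟩
  obtain ⟨B1, hB1⟩ := exists_nat_ge ((6 * E + 1 : ℝ) * (1 / θ + 1))
  refine ⟨B1 + 6 * E + 1, fun B hB => ?_⟩
  set K1 : ℝ := Real.sqrt (96 * 4 / η) with hK1
  have hK1p : 0 < K1 := Real.sqrt_pos.2 (by positivity)
  have hK1s : K1 ^ 2 = 96 * 4 / η := Real.sq_sqrt (by positivity)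
  obtain ⟨Q1, hQ1⟩ := exists_nat_ge (2 * π * K1)
  refine ⟨Q1 + 3, fun Q hQ w f τ hτ hττ hf hnp => ?_⟩
  have hτ1 : τ ≤ 1 := hττ.trans (min_le_left _ _)
  have hτ2 : τ ^ 2 ≤ η * c ^ 2 / 10 ^ 4 := by
    have h1 := hττ.trans (min_le_right _ _)
    have h2 := pow_le_pow_left₀ hτ h1 2
    rwa [Real.sq_sqrt (by positivity)] at h2
  have hQ3 : 3 ≤ Q := by omega
  have hQr : (3 : ℝ) ≤ Q := by exact_mod_cast hQ3
  have hQ1r : 2 * π * K1 ≤ (Q : ℝ) := by
    refine hQ1.trans ?_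
    exact_mod_cast (by omega : Q1 ≤ Q)
  have hL := log_ge_one hQ3
  set L := Real.log Q with hLdef
  have hE0 : 1 ≤ E := by omega
  have hEr : (1 : ℝ) ≤ E := by exact_mod_cast hE0
  have hBr : (1 : ℝ) ≤ B := by exact_mod_cast (by omega : 1 ≤ B)
  set y := Q ^ 6 with hy
  set z := Q ^ (6 * E) with hz
  set N := Q ^ B with hN
  have hyz : y ≤ z := Nat.pow_le_pow_right (by omega) (by omega)
  have hzN : z ≤ N := Nat.pow_le_pow_right (by omega) (by omega)
  have hQy : Q ≤ y := Nat.le_self_pow (by omega) Q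
  have hW1 := (abs_le.1 (hW Q 6 (6 * E) hQ3 (by omega) (by omega))).1
  have hW2 : Real.log (((6 * E : ℕ) : ℝ) / (6 : ℕ)) = Real.log E := by
    congr 1; push_cast; field_simp
  rw [hW2] at hW1
  have hWE : W0 + CW ≤ Real.log E := by
    rw [Real.le_log_iff_exp_le (by linarith)]
    refine hE1.trans ?_
    exact_mod_cast (by omega : E1 ≤ E)
  have hWW : W0 ≤ WP (PP y z) := by
    rw [WP_eq]
    linarith
  set W := WP (PP y z) with hWdef
  have hWp : 0 < W := by linarith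
  have hQ0 : (0 : ℝ) < Q := by positivity
  set h : ℝ := 1 / (Q : ℝ) ^ 3 with hh
  have h0 : 0 < h := by positivity
  have h1 : h ≤ 1 := by
    rw [hh, div_le_one (by positivity)]
    exact one_le_pow₀ (by linarith)
  have hκ : 0 < c * W := by positivity
  have hΞ : 0 < K1 * (Q : ℝ) ^ 3 := by positivity
  have hm : ∀ (q : ℕ) [NeZero q], q ≤ Q → ∀ χ : DirichletCharacter ℂ q, ∀ ξ : ℝ,
      |ξ| ≤ K1 * (Q : ℝ) ^ 3 →
      c * W ≤ ‖mult W (PP y z) (fun p => w p * χ (p : ZMod q) / p) ξ‖ := by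
    intro q _ hq χ ξ hξ
    refine le_trans ?_ (mult_lower χ w y z ξ)
    have h2 := hnp q hq χ (2 * π * ξ) (by
      rw [abs_mul, abs_of_pos (by positivity : 0 < 2 * π)]
      calc 2 * π * |ξ| ≤ 2 * π * (K1 * (Q : ℝ) ^ 3) := mul_le_mul_of_nonneg_left hξ (by positivity)
        _ = 2 * π * K1 * (Q : ℝ) ^ 3 := by ring
        _ ≤ Q * (Q : ℝ) ^ 3 := mul_le_mul_of_nonneg_right hQ1r (by positivity)
        _ = (Q : ℝ) ^ 4 := by ring)
    rw [← hWdef] at h2
    linarith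
  have key := energy_mult (F := Q) (W := W) (P := PP y z) (S := Ioc z N) (K := Ioc z (N * z))
    w (fun n => f n / n) (fun p hp => ⟨(mem_PP.1 hp).2, lt_of_le_of_lt hQy (mem_PP.1 hp).1.1⟩)
    (fun s hs => by rw [mem_Ioc] at hs; omega)
    (fun s hs => by
      rw [mem_Ioc] at hs ⊢
      exact ⟨hs.1, hs.2.trans (Nat.le_mul_of_pos_right N (by positivity))⟩)
    (fun s hs => by rw [mem_Ioc] at hs; omega)
    (fun s hs p hp => by
      rw [mem_Ioc] at hs ⊢
      rw [mem_PP] at hp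
      exact ⟨lt_of_lt_of_le hs.1 (Nat.le_mul_of_pos_left s hp.2.pos),
        (Nat.mul_le_mul hp.1.2 hs.2).trans (le_of_eq (mul_comm _ _))⟩)
    h0 h1 hκ hΞ hm
  refine key.trans ?_
  have hcoef : ∀ n : ℕ, z < n → 6 * (15 * (n : ℝ) + (1 + (Q : ℝ) ^ 2) / h) ≤ 102 * n := by
    intro n hn
    have h2 : (1 + (Q : ℝ) ^ 2) / h ≤ 2 * n := by
      rw [hh, div_div_eq_mul_div, div_one]
      have h3 : (Q : ℝ) ^ 6 ≤ n := by
        have : Q ^ 6 ≤ n := hyz.trans hn.le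
        exact_mod_cast this
      have h4 : (1 : ℝ) ≤ (Q : ℝ) ^ 2 := one_le_pow₀ (by linarith)
      have h5 : (0 : ℝ) < (Q : ℝ) ^ 3 := by positivity
      have h6 : (1 + (Q : ℝ) ^ 2) * (Q : ℝ) ^ 3 ≤ 2 * (Q : ℝ) ^ 5 := by
        have h8 := mul_le_mul_of_nonneg_right h4 h5.le
        linarith
      have h7 : (Q : ℝ) ^ 5 ≤ (Q : ℝ) ^ 6 := pow_le_pow_right₀ (by linarith) (by norm_num)
      linarith
    linarith
  -- first sum
  have s1 : ∑ n ∈ Ioc z (N * z), 6 * (15 * (n : ℝ) + (1 + (Q : ℝ) ^ 2) / h) *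
      ‖gco W (PP y z) (fun p => w p / p) (Ioc z N) (fun n => f n / n) n‖ ^ 2 ≤
      102 * (48 * W * (2 + Real.log (N * z : ℕ)) + 32 * (1 + Real.log (N * z : ℕ)) +
        32 * W ^ 2 * Real.log z + 4 * (τ * W) ^ 2 * Real.log (N * z : ℕ)) := by
    have h2 := gco_energy (z := z) (M := z) (N := N) hf hτ hτ1 (Nat.one_le_pow _ _ (by omega)) hyz le_rfl hzN
    refine le_trans ?_ (mul_le_mul_of_nonneg_left h2 (by norm_num))
    rw [mul_sum]
    apply sum_le_sum
    intro n hn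
    rw [mem_Ioc] at hn
    rw [← mul_assoc]
    exact mul_le_mul_of_nonneg_right (hcoef n hn.1) (by positivity)
  have s2 : ∑ n ∈ Ioc z N, 6 * (15 * (n : ℝ) + (1 + (Q : ℝ) ^ 2) / h) * ‖f n / (n : ℂ)‖ ^ 2 ≤
      102 * (B * L) := by
    have h2 : ∑ n ∈ Ioc z N, (1 : ℝ) / n ≤ B * L := by
      refine (harm_le (Nat.one_le_pow _ _ (by omega)) hzN).trans ?_
      have h3 : Real.log ((N : ℝ) / z) ≤ Real.log N := by
        apply Real.log_le_log
        · have : (0 : ℝ) < z := by rw [hz]; positivity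
          have : (0 : ℝ) < N := by rw [hN]; positivity
          positivity
        · apply div_le_self (by positivity)
          exact_mod_cast Nat.one_le_pow _ _ (by omega)
      refine h3.trans (le_of_eq ?_)
      rw [hN]; push_cast; rw [Real.log_pow]
    refine le_trans ?_ (mul_le_mul_of_nonneg_left h2 (by norm_num))
    rw [mul_sum]
    apply sum_le_sum
    intro n hn
    rw [mem_Ioc] at hn
    have hn0 : (0 : ℝ) < n := by exact_mod_cast (by omega : 0 < n)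
    have h3 : ‖f n / (n : ℂ)‖ ^ 2 ≤ 1 / (n : ℝ) ^ 2 := by
      rw [norm_div, Complex.norm_natCast, div_pow]
      apply div_le_div_of_nonneg_right _ (by positivity)
      exact pow_le_one₀ (norm_nonneg _) (hf.bd n)
    calc 6 * (15 * (n : ℝ) + (1 + (Q : ℝ) ^ 2) / h) * ‖f n / (n : ℂ)‖ ^ 2
        ≤ 102 * n * (1 / (n : ℝ) ^ 2) :=
          mul_le_mul (hcoef n hn.1) h3 (by positivity) (by positivity)
      _ = 102 * (1 / n) := by field_simp
  have e1 : Real.log ((N * z : ℕ) : ℝ) = (B + 6 * E) * L := by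
    rw [hN, hz, ← pow_add]
    push_cast
    rw [Real.log_pow]
    push_cast
    ring
  have e2 : Real.log ((z : ℕ) : ℝ) = 6 * E * L := by
    rw [hz]; push_cast; rw [Real.log_pow]; push_cast; ring
  rw [e1, e2] at s1
  have hBE : (6 * E + 1 : ℝ) * (1 / θ + 1) ≤ B := by
    refine hB1.trans ?_
    exact_mod_cast (by omega : B1 ≤ B)
  have hBE2 : (6 * E : ℝ) ≤ B := by exact_mod_cast (by omega : 6 * E ≤ B)
  -- final numerics
  have t2 : (1 / (h * (K1 * (Q : ℝ) ^ 3))) ^ 2 * (102 * (B * L)) ≤ η / 3 * (B * L) := by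
    have h2 : h * (K1 * (Q : ℝ) ^ 3) = K1 := by rw [hh]; field_simp
    rw [h2, one_div, inv_pow, hK1s]
    have hBL : 0 ≤ B * L := by positivity
    have : (96 * 4 / η)⁻¹ * (102 * (B * L)) = 102 / 384 * η * (B * L) := by field_simp; ring
    rw [this]
    apply mul_le_mul_of_nonneg_right _ hBL
    linarith
  have t1 : (1 / (c * W)) ^ 2 * (102 * (48 * W * (2 + (B + 6 * E) * L) + 32 * (1 + (B + 6 * E) * L) +
        32 * W ^ 2 * (6 * E * L) + 4 * (τ * W) ^ 2 * ((B + 6 * E) * L))) ≤ 2 * η / 3 * (B * L) := by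
    have hx : 1 / W ≤ θ := by
      rw [div_le_iff₀ hWp]
      have : 1 / θ ≤ W := by linarith
      rw [div_le_iff₀ hθ0] at this
      linarith
    have hx1 : 1 / W ≤ 1 := by
      rw [div_le_one hWp]
      have : 0 < 1 / θ := by positivity
      linarith
    have hx0 : 0 < 1 / W := by positivity
    have e3 : (1 / (c * W)) ^ 2 * (102 * (48 * W * (2 + (B + 6 * E) * L) + 32 * (1 + (B + 6 * E) * L) +
        32 * W ^ 2 * (6 * E * L) + 4 * (τ * W) ^ 2 * ((B + 6 * E) * L))) =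
        102 / c ^ 2 * (48 * (1 / W) * (2 + (B + 6 * E) * L) +
          32 * (1 / W) ^ 2 * (1 + (B + 6 * E) * L) + 32 * (6 * E * L) + 4 * τ ^ 2 * ((B + 6 * E) * L)) := by
      field_simp
    rw [e3]
    have hBL : 1 ≤ B * L := one_le_mul_of_one_le_of_one_le hBr hL.le
    have hEL : 6 * E * L ≤ θ * (B * L) := by
      have h2 : 6 * (E : ℝ) ≤ θ * B := by
        have h3 : (6 * E : ℝ) * (1 / θ) ≤ B := by
          refine le_trans ?_ hBE
          have h4 : 0 < 1 / θ := by positivity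
          exact mul_le_mul (by linarith) (by linarith) h4.le (by linarith)
        rw [mul_one_div, div_le_iff₀ hθ0] at h3
        linarith
      have h3 := mul_le_mul_of_nonneg_right h2 (by linarith : 0 ≤ L)
      linarith
    have hELB : 6 * E * L ≤ B * L := mul_le_mul_of_nonneg_right hBE2 (by linarith)
    have g1 : 2 + (B + 6 * E) * L ≤ 4 * (B * L) := by linarith
    have g2 : 1 + (B + 6 * E) * L ≤ 3 * (B * L) := by linarith
    have g3 : 48 * (1 / W) * (2 + (B + 6 * E) * L) ≤ 48 * θ * (4 * (B * L)) := by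
      apply mul_le_mul _ g1 _ (by positivity)
      · linarith
      · have : 0 ≤ (B + 6 * E) * L := by positivity
        linarith
    have g4 : 32 * (1 / W) ^ 2 * (1 + (B + 6 * E) * L) ≤ 32 * θ * (3 * (B * L)) := by
      apply mul_le_mul _ g2 _ (by positivity)
      · have h2 : (1 / W) ^ 2 ≤ 1 / W := by
          rw [sq]
          exact mul_le_of_le_one_right hx0.le hx1
        linarith
      · have : 0 ≤ (B + 6 * E) * L := by positivity
        linarith
    have g5 : 32 * (6 * E * L) ≤ 32 * (θ * (B * L)) := by linarith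
    have g7 : 4 * τ ^ 2 * ((B + 6 * E) * L) ≤ 4 * (η * c ^ 2 / 10 ^ 4) * (2 * (B * L)) := by
      apply mul_le_mul _ _ (by positivity) (by positivity)
      · linarith
      · linarith
    have g6 : 102 / c ^ 2 * (48 * θ * (4 * (B * L)) + 32 * θ * (3 * (B * L)) + 32 * (θ * (B * L)) +
        4 * (η * c ^ 2 / 10 ^ 4) * (2 * (B * L))) = (102 * 320 / 10 ^ 6 + 816 / 10 ^ 4) * η * (B * L) := by
      rw [hθ]; field_simp; ring
    have g8 : (102 * 320 / 10 ^ 6 + 816 / 10 ^ 4) * η * (B * L) ≤ 2 * η / 3 * (B * L) := by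
      apply mul_le_mul_of_nonneg_right _ (by positivity)
      linarith
    have g9 : 48 * (1 / W) * (2 + (B + 6 * E) * L) +
          32 * (1 / W) ^ 2 * (1 + (B + 6 * E) * L) + 32 * (6 * E * L) + 4 * τ ^ 2 * ((B + 6 * E) * L) ≤
        48 * θ * (4 * (B * L)) + 32 * θ * (3 * (B * L)) + 32 * (θ * (B * L)) +
        4 * (η * c ^ 2 / 10 ^ 4) * (2 * (B * L)) := by linarith
    have g10 := mul_le_mul_of_nonneg_left g9 (by positivity : 0 ≤ 102 / c ^ 2)
    linarith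
  calc _ ≤ (1 / (c * W)) ^ 2 * (102 * (48 * W * (2 + (B + 6 * E) * L) + 32 * (1 + (B + 6 * E) * L) +
        32 * W ^ 2 * (6 * E * L) + 4 * (τ * W) ^ 2 * ((B + 6 * E) * L))) +
        (1 / (h * (K1 * (Q : ℝ) ^ 3))) ^ 2 * (102 * (B * L)) :=
        add_le_add (mul_le_mul_of_nonneg_left s1 (by positivity))
          (mul_le_mul_of_nonneg_left s2 (by positivity))
    _ ≤ 2 * η / 3 * (B * L) + η / 3 * (B * L) := add_le_add t1 t2
    _ = η * (B * L) := by ring

end Pool.Agent.TH823.EL
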